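import Pool.Agent.Lib.MP_2710d6_gt.HK.Torus

open MeasureTheory Set Filter Topology
open scoped Manifold ContDiff

namespace Pool.Agent.DonHC

open Pool.Agent.DonHK

attribute [local instance] tcs tman

/-- The alternating matrix with the six given upper entries. -/
def am (a01 a02 a03 a12 a13 a23 : ℝ) : Fin 4 → Fin 4 → ℝ :=
  ![![0, a01, a02, a03], ![-a01, 0, a12, a13], ![-a02, -a12, 0, a23], ![-a03, -a13, -a23, 0]]

theorem wedge_am (A : Fin 4 → Fin 4 → ℝ) (a b c d e f : ℝ) : wedge A (am a b c d e f) =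
    A 0 1 * f - A 0 2 * e + A 0 3 * d + A 2 3 * a - A 1 3 * b + A 1 2 * c := rfl

theorem wedge_am_am (a b c d e f a' b' c' d' e' f' : ℝ) :
    wedge (am a b c d e f) (am a' b' c' d' e' f') =
      a * f' - b * e' + c * d' + f * a' - e * b' + d * c' := rfl

theorem am_alt (a b c d e f : ℝ) : (Matrix.toBilin' (Matrix.of (am a b c d e f))).IsAlt :=
  fun u => by
    simp [Matrix.toBilin'_apply, Fin.sum_univ_four, am]
    ring

theorem per_cos : Function.Periodic (fun y : ℝ => Real.cos (2 * Real.pi * y)) 1 := fun y => by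
  simp only [mul_add, mul_one, Real.cos_add_two_pi]

theorem per_sin : Function.Periodic (fun y : ℝ => Real.sin (2 * Real.pi * y)) 1 := fun y => by
  simp only [mul_add, mul_one, Real.sin_add_two_pi]

noncomputable def cs : UnitAddCircle → ℝ := per_cos.lift

noncomputable def sn : UnitAddCircle → ℝ := per_sin.lift

theorem cs_abs (x : UnitAddCircle) : |cs x| ≤ 1 := by
  induction x using QuotientAddGroup.induction_on with
  | H y => exact Real.abs_cos_le_one _

noncomputable def C (i : Fin 4) (y : Pt) : ℝ := Real.cos (2 * Real.pi * y i)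

noncomputable def S (i : Fin 4) (y : Pt) : ℝ := Real.sin (2 * Real.pi * y i)

@[fun_prop] theorem C_sm (i : Fin 4) : ContDiff ℝ ∞ (C i) := by unfold C; fun_prop

@[fun_prop] theorem S_sm (i : Fin 4) : ContDiff ℝ ∞ (S i) := by unfold S; fun_prop

/-- A two-form on the torus whose coefficients are functions of two cosines. -/
noncomputable def fm (A : ℝ → ℝ → Fin 4 → Fin 4 → ℝ) : Form2 T4 :=
  fun x => Matrix.toBilin' (Matrix.of (A (cs (x 0)) (cs (x 1))))

theorem co2_fm (A : ℝ → ℝ → Fin 4 → Fin 4 → ℝ) (p : T4) (a c : Fin 4) :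
    co2 (fm A) p a c = fun y => A (C 0 y) (C 1 y) a c := funext fun y => by
  unfold co2 ev
  rw [tframe, tframe]
  exact Matrix.toBilin'_single _ _ _

theorem mat_fm (A : ℝ → ℝ → Fin 4 → Fin 4 → ℝ) (x : T4) :
    mat (fm A) x = A (cs (x 0)) (cs (x 1)) := funext fun a => funext fun c =>
  Matrix.toBilin'_single (Matrix.of (A (cs (x 0)) (cs (x 1)))) a c

theorem sm_fm {a b c d e f : ℝ → ℝ → ℝ} (ha : ContDiff ℝ ∞ fun y => a (C 0 y) (C 1 y))
    (hb : ContDiff ℝ ∞ fun y => b (C 0 y) (C 1 y)) (hc : ContDiff ℝ ∞ fun y => c (C 0 y) (C 1 y))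
    (hd : ContDiff ℝ ∞ fun y => d (C 0 y) (C 1 y)) (he : ContDiff ℝ ∞ fun y => e (C 0 y) (C 1 y))
    (hf : ContDiff ℝ ∞ fun y => f (C 0 y) (C 1 y)) :
    Sm2 (fm fun u v => am (a u v) (b u v) (c u v) (d u v) (e u v) (f u v)) := by
  refine ⟨fun _ => am_alt _ _ _ _ _ _, fun p i j => ?_⟩
  rw [co2_fm]
  refine ContDiff.contDiffOn ?_
  fin_cases i <;> fin_cases j <;>
    first
    | exact contDiff_const | exact ha | exact hb | exact hc | exact hd | exact he | exact hf
    | exact ha.neg | exact hb.neg | exact hc.neg | exact hd.neg | exact he.neg | exact hf.neg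

theorem pd_line {g : Pt → ℝ} (hg : ContDiff ℝ ∞ g) (a : Fin 4) (y : Pt) {d : ℝ}
    (h : HasDerivAt (fun s : ℝ => g (y + s • (Pi.single a 1 : Pt))) d 0) : pd a g y = d := by
  have h1 : HasLineDerivAt ℝ g (pd a g y) y (Pi.single a 1) :=
    (hg.differentiable (by simp) y).hasFDerivAt.hasLineDerivAt _
  exact h1.unique h

theorem pd_ind {g : Pt → ℝ} (hg : ContDiff ℝ ∞ g) (a : Fin 4) (y : Pt)
    (h : ∀ s : ℝ, g (y + s • (Pi.single a 1 : Pt)) = g y) : pd a g y = 0 :=
  pd_line hg a y (by simp only [h]; exact hasDerivAt_const _ _)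

theorem C_ne {i a : Fin 4} (h : i ≠ a) (y : Pt) (s : ℝ) :
    C i (y + s • (Pi.single a 1 : Pt)) = C i y := by simp [C, h]

theorem S_ne {i a : Fin 4} (h : i ≠ a) (y : Pt) (s : ℝ) :
    S i (y + s • (Pi.single a 1 : Pt)) = S i y := by simp [S, h]

theorem C_der (i : Fin 4) (y : Pt) : HasDerivAt (fun s : ℝ => C i (y + s • (Pi.single i 1 : Pt)))
    (-(2 * Real.pi * S i y)) 0 := by
  have h := (((hasDerivAt_id (0 : ℝ)).const_add (y i)).const_mul (2 * Real.pi)).cos
  simp only [id, add_zero, mul_one] at h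
  simpa [C, S, mul_comm] using h

theorem S_der (i : Fin 4) (y : Pt) : HasDerivAt (fun s : ℝ => S i (y + s • (Pi.single i 1 : Pt)))
    (2 * Real.pi * C i y) 0 := by
  have h := (((hasDerivAt_id (0 : ℝ)).const_add (y i)).const_mul (2 * Real.pi)).sin
  simp only [id, add_zero, mul_one] at h
  simpa [C, S, mul_comm] using h

theorem pd_neg' (a : Fin 4) (f : Pt → ℝ) (y : Pt) : pd a (fun y => -f y) y = -pd a f y := by
  simp [pd, fderiv_fun_neg]

theorem pd_const' (a : Fin 4) (c : ℝ) (y : Pt) : pd a (fun _ => c) y = 0 := by simp [pd]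

theorem closed_fm {a : ℝ → ℝ → ℝ} {c d : ℝ → ℝ} (b e f : ℝ)
    (ha : ContDiff ℝ ∞ fun y => a (C 0 y) (C 1 y)) (hc : ContDiff ℝ ∞ fun y => c (C 0 y))
    (hd : ContDiff ℝ ∞ fun y => d (C 1 y)) :
    Closed2 (fm fun u v => am (a u v) b (c u) (d v) e f) := by
  have hs := sm_fm (b := fun _ _ => b) (c := fun u _ => c u) (d := fun _ v => d v)
    (e := fun _ _ => e) (f := fun _ _ => f) ha contDiff_const hc hd contDiff_const contDiff_const
  refine ⟨hs.1, hs.2, fun p i j k y _ => ?_⟩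
  simp only [co2_fm]
  have a2 := pd_ind ha 2 y fun s => by rw [C_ne (by decide), C_ne (by decide)]
  have a3 := pd_ind ha 3 y fun s => by rw [C_ne (by decide), C_ne (by decide)]
  have c1 := pd_ind hc 1 y fun s => by rw [C_ne (by decide)]
  have c2 := pd_ind hc 2 y fun s => by rw [C_ne (by decide)]
  have d0 := pd_ind hd 0 y fun s => by rw [C_ne (by decide)]
  have d3 := pd_ind hd 3 y fun s => by rw [C_ne (by decide)]
  fin_cases i <;> fin_cases j <;> fin_cases k <;>
    simp [am, pd_neg', pd_const', a2, a3, c1, c2, d0, d3]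

variable {M : Type*} [TopologicalSpace M] [ChartedSpace Pt M] {Ω : Fin 3 → Form2 M}
  {ρ ζ : Form2 M} [IsManifold 𝓘(ℝ, Pt) ∞ M] [MeasurableSpace M] {μ : Measure M} [CompactSpace M]
  [BorelSpace M]

theorem hasDerivAt_energy' (hn : Nd (Ω 0)) (hs : ∀ i, Sm2 (Ω i)) (hμ : IsVol (Ω 0) μ)
    (hρ : Sm2 ρ) (hp : ∀ x, 0 < quot (Ω 0) ρ ρ x) (hζ : Sm2 ζ) :
    HasDerivAt (fun t : ℝ => energy Ω μ (ρ + t • ζ))
      (∫ x, 2 * (kk Ω ρ 0 x * quot (Ω 0) ζ (Ω 0) x + kk Ω ρ 1 x * quot (Ω 0) ζ (Ω 1) x +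
        kk Ω ρ 2 x * quot (Ω 0) ζ (Ω 2) x - nn Ω ρ x * quot (Ω 0) ζ ρ x) ∂μ) 0 := by
  have := hμ.1
  have a := fun i => (sm_quot hn hρ (hs i)).continuous
  have b := fun i => (sm_quot hn hζ (hs i)).continuous
  convert hasDerivAt_quot μ (N0 := fun x => ∑ i, quot (Ω 0) ρ (Ω i) x ^ 2)
    (N1 := fun x => 2 * ∑ i, quot (Ω 0) ρ (Ω i) x * quot (Ω 0) ζ (Ω i) x)
    (N2 := fun x => ∑ i, quot (Ω 0) ζ (Ω i) x ^ 2) (U1 := fun x => 2 * quot (Ω 0) ζ ρ x)
    (by fun_prop) (by fun_prop) (by fun_prop) (sm_quot hn hρ hρ).continuous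
    (continuous_const.mul (sm_quot hn hζ hρ).continuous) (sm_quot hn hζ hζ).continuous hp
    using 2 with t
  · unfold energy
    congr 1
    ext x
    congr 1
    · simp only [Fin.sum_univ_three, quot_add, quot_smul]
      ring
    · rw [quot_add, quot_smul, quot_comm _ ρ, quot_comm _ ζ, quot_add, quot_smul, quot_add,
        quot_smul, quot_comm _ ρ ζ]
      ring
  · ext x
    have := (hp x).ne'
    simp only [Fin.sum_univ_three, nn, kk]
    field_simp

end Pool.Agent.DonHC
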