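import Pool.Agent.Lib.MP_2710d6_gt.HC.Base

open MeasureTheory Set Filter Topology
open scoped Manifold ContDiff

namespace Pool.Agent.DonHC

open Pool.Agent.DonHK

attribute [local instance] tcs tman

def tt (u v : ℝ) : ℝ := 2 + 10 * (u * v)

def kq (u v : ℝ) : ℝ := 20 - 10 * (u * v)

def ww (u v : ℝ) : ℝ := 200 - 180 * (u * v) + 100 * (u * v) ^ 2

def NN (u v : ℝ) : ℝ := ww u v * (ww u v + 2) * (10 * v - u) ^ 2 + (ww u v * tt u v) ^ 2

theorem ww_gt (u v : ℝ) : 1 < ww u v := by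
  unfold ww
  nlinarith [sq_nonneg (10 * (u * v) - 9)]

theorem NN_pos (u v : ℝ) : 0 < NN u v := by
  have h := ww_gt u v
  unfold NN
  by_cases e : 10 * v - u = 0
  · have : 0 < tt u v := by
      unfold tt
      have : u = 10 * v := by linarith
      subst this
      nlinarith [sq_nonneg v]
    have h0 : 0 < ww u v := by linarith
    rw [e]
    positivity
  · have h0 : 0 < ww u v := by linarith
    positivity

theorem kq_pos {u v : ℝ} (hu : |u| ≤ 1) (hv : |v| ≤ 1) : 0 < kq u v := by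
  have h : |u * v| ≤ 1 := by
    rw [abs_mul]
    exact mul_le_one₀ hu (abs_nonneg _) hv
  unfold kq
  linarith [(abs_le.1 h).2]

noncomputable def rr (u v : ℝ) : ℝ := (Real.sqrt (NN u v))⁻¹

theorem rr_sq (u v : ℝ) : rr u v ^ 2 * NN u v = 1 := by
  unfold rr
  rw [inv_pow, Real.sq_sqrt (NN_pos u v).le, inv_mul_cancel₀ (NN_pos u v).ne']

noncomputable def A0 (u v : ℝ) := am (-(tt u v * ww u v)) 1 (-u) 0 (-1) 0

noncomputable def AR (u v : ℝ) := am ((fun _ => 0) u) 1 0 (-(10 * v)) (-1) 0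

noncomputable def AT (u v : ℝ) := am (-(ww u v * (ww u v + 2))) 0 0 0 0 1

noncomputable def A1 (u v : ℝ) :=
  am ((tt u v ^ 2 * ww u v - ww u v * (ww u v + 2)) * (kq u v)⁻¹)
    ((ww u v + 2 - tt u v) * (kq u v)⁻¹) (tt u v * u * (kq u v)⁻¹)
    (-((ww u v + 2) * (10 * v)) * (kq u v)⁻¹) ((tt u v - (ww u v + 2)) * (kq u v)⁻¹) (kq u v)⁻¹

noncomputable def A2 (u v : ℝ) :=
  am (ww u v * (ww u v + 2) * (10 * v - u) * rr u v) 0 (ww u v * tt u v * rr u v)
    (ww u v * tt u v * rr u v) (-(10 * v * (ww u v * tt u v)) * rr u v) ((10 * v - u) * rr u v)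

theorem tt_sm : ContDiff ℝ ∞ fun y => tt (C 0 y) (C 1 y) := by unfold tt; fun_prop

theorem ww_sm : ContDiff ℝ ∞ fun y => ww (C 0 y) (C 1 y) := by unfold ww; fun_prop

theorem kq_sm : ContDiff ℝ ∞ fun y => (kq (C 0 y) (C 1 y))⁻¹ :=
  ContDiff.inv (by unfold kq; fun_prop) fun _ =>
    (kq_pos (Real.abs_cos_le_one _) (Real.abs_cos_le_one _)).ne'

theorem rr_sm : ContDiff ℝ ∞ fun y => rr (C 0 y) (C 1 y) := by
  have h : ContDiff ℝ ∞ fun y => NN (C 0 y) (C 1 y) := by
    have := tt_sm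
    have := ww_sm
    unfold NN
    fun_prop
  exact (h.sqrt fun _ => (NN_pos _ _).ne').inv fun _ => (Real.sqrt_pos.2 (NN_pos _ _)).ne'

theorem cl0 : Closed2 (fm A0) :=
  closed_fm (c := fun u => -u) (d := fun _ => 0) 1 (-1) 0 (tt_sm.mul ww_sm).neg (C_sm 0).neg
    contDiff_const

theorem clR : Closed2 (fm AR) :=
  closed_fm (a := fun _ _ => 0) (c := fun _ => 0) (d := fun v => -(10 * v)) 1 (-1) 0
    contDiff_const contDiff_const (by fun_prop)

theorem clT : Closed2 (fm AT) :=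
  closed_fm (c := fun _ => 0) (d := fun _ => 0) 0 0 1
    (ww_sm.mul (ww_sm.add contDiff_const)).neg contDiff_const contDiff_const

theorem sm1 : Sm2 (fm A1) := by
  have := tt_sm
  have := ww_sm
  have := kq_sm
  exact sm_fm (by fun_prop) (by fun_prop) (by fun_prop) (by fun_prop) (by fun_prop) (by fun_prop)

theorem sm2 : Sm2 (fm A2) := by
  have := tt_sm
  have := ww_sm
  have := rr_sm
  exact sm_fm (by fun_prop) (by fun_prop) (by fun_prop) (by fun_prop) (by fun_prop) (by fun_prop)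

theorem w00 (u v : ℝ) : wedge (A0 u v) (A0 u v) = 2 := by
  rw [A0, wedge_am_am]
  ring

theorem quot0 (α β : Form2 T4) (x : T4) : quot (fm A0) α β x = wedge (mat α x) (mat β x) := by
  rw [quot, mat_fm, w00]
  simp

noncomputable def Om : Fin 3 → Form2 T4 := ![fm A0, fm A1, fm A2]

theorem smO (i : Fin 3) : Sm2 (Om i) := by
  fin_cases i
  exacts [cl0.sm, sm1, sm2]

theorem nd0 : Nd (fm A0) := ⟨cl0.sm, fun x => by rw [mat_fm, w00]; exact two_ne_zero⟩

section

variable {u v : ℝ} (hk : kq u v ≠ 0)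

theorem w02 (u v : ℝ) : wedge (A0 u v) (A2 u v) = 0 := by
  rw [A0, A2, wedge_am_am]
  ring

theorem w22 (u v : ℝ) : wedge (A2 u v) (A2 u v) = 2 := by
  have h := rr_sq u v
  rw [A2, wedge_am_am]
  unfold NN at h
  linear_combination 2 * h

theorem wR0 (u v : ℝ) : wedge (AR u v) (A0 u v) = tt u v := by
  rw [AR, A0, wedge_am_am, tt]
  ring

theorem wRR (u v : ℝ) : wedge (AR u v) (AR u v) = 2 := by
  rw [AR, wedge_am_am]
  ring

theorem wR2 (u v : ℝ) : wedge (AR u v) (A2 u v) = 0 := by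
  rw [AR, A2, wedge_am_am]
  ring

theorem w01 (u v : ℝ) : wedge (A0 u v) (A1 u v) = 0 := by
  rw [A0, A1, wedge_am_am]
  unfold tt
  ring

theorem w12 (u v : ℝ) : wedge (A1 u v) (A2 u v) = 0 := by
  rw [A1, A2, wedge_am_am]
  ring

include hk

theorem w11' : wedge (A1 u v) (A1 u v) = 2 := by
  rw [A1, wedge_am_am]
  field_simp
  unfold tt ww kq
  ring

theorem wR1 : wedge (AR u v) (A1 u v) = kq u v := by
  rw [AR, A1, wedge_am_am]
  field_simp
  unfold tt ww kq
  ring

theorem wvar (Z : Fin 4 → Fin 4 → ℝ) :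
    2 * (tt u v / 2 * wedge Z (A0 u v) + kq u v / 2 * wedge Z (A1 u v) + 0 / 2 * wedge Z (A2 u v) -
      (tt u v / 2 * (tt u v / 2) + kq u v / 2 * (kq u v / 2) + 0 / 2 * (0 / 2)) *
        wedge Z (AR u v)) = wedge Z (AT u v) := by
  rw [A0, A1, AR, AT, wedge_am, wedge_am, wedge_am, wedge_am]
  field_simp
  unfold tt ww kq
  ring

end

theorem hkx (x : T4) : kq (cs (x 0)) (cs (x 1)) ≠ 0 := (kq_pos (cs_abs _) (cs_abs _)).ne'

theorem wedge_comm' (A B : Fin 4 → Fin 4 → ℝ) : wedge A B = wedge B A := by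
  unfold wedge
  ring

theorem gram (i j : Fin 3) (x : T4) :
    quot (Om 0) (Om i) (Om j) x = if i = j then 2 else 0 := by
  change quot (fm A0) _ _ x = _
  rw [quot0]
  fin_cases i <;> fin_cases j <;>
    simp [Om, mat_fm, w00, w01, w02, w12, w22, w11' (hkx x), wedge_comm' (A1 _ _) (A0 _ _),
      wedge_comm' (A2 _ _) (A0 _ _), wedge_comm' (A2 _ _) (A1 _ _)]

theorem qRR (x : T4) : quot (Om 0) (fm AR) (fm AR) x = 2 := by
  change quot (fm A0) _ _ x = _
  rw [quot0, mat_fm, wRR]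

theorem qR0 (x : T4) : quot (Om 0) (fm AR) (Om 0) x = tt (cs (x 0)) (cs (x 1)) := by
  change quot (fm A0) _ (fm A0) x = _
  rw [quot0, mat_fm, mat_fm, wR0]

theorem qR1 (x : T4) : quot (Om 0) (fm AR) (Om 1) x = kq (cs (x 0)) (cs (x 1)) := by
  change quot (fm A0) _ (fm A1) x = _
  rw [quot0, mat_fm, mat_fm, wR1 (hkx x)]

theorem qR2 (x : T4) : quot (Om 0) (fm AR) (Om 2) x = 0 := by
  change quot (fm A0) _ (fm A2) x = _
  rw [quot0, mat_fm, mat_fm, wR2]

noncomputable def mu : Measure T4 := Measure.pi fun _ => AddCircle.haarAddCircle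

theorem mu_prob : IsProbabilityMeasure mu := by unfold mu; infer_instance

attribute [local instance] mu_prob

theorem vol : IsVol (Om 0) mu := by
  refine ⟨inferInstance, by unfold mu; infer_instance, fun p F _ _ => ?_⟩
  change _ = ∫ y in _, _ * |wedge (fun a c => co2 (fm A0) p a c y)
    (fun a c => co2 (fm A0) p a c y) / 2|
  simp only [co2_fm, w00]
  refine (UnitAddTorus.integral_preimage F (tpt p)).trans ?_
  have h1 : (chartAt Pt p).target =ᵐ[volume] {x : Pt | ∀ i, x i ∈ Ioc (tpt p i) (tpt p i + 1)} := by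
    have h2 := Measure.pi_Ioo_ae_eq_pi_Ioc (μ := fun _ : Fin 4 => (volume : Measure ℝ))
      (s := univ) (f := tpt p) (g := fun i => tpt p i + 1)
    have h3 : {x : Pt | ∀ i, x i ∈ Ioc (tpt p i) (tpt p i + 1)} =
        univ.pi fun i => Ioc (tpt p i) (tpt p i + 1) := by
      ext x
      simp only [mem_ofPred_eq, mem_univ_pi]
    rw [h3]
    exact h2
  rw [setIntegral_congr_set h1]
  simp only [ne_eq, OfNat.ofNat_ne_zero, not_false_eq_true, div_self, abs_one, mul_one]
  rfl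

theorem crit : IsCritical Om mu (fm AR) := by
  rintro ζ ⟨l, hl⟩
  have hl' : IsD l ζ := hl
  have h := hasDerivAt_energy' (Ω := Om) nd0 smO vol clR.sm
    (fun x => by rw [qRR]; exact two_pos) hl'.sm
  have e : ∀ x, 2 * (kk Om (fm AR) 0 x * quot (Om 0) ζ (Om 0) x +
      kk Om (fm AR) 1 x * quot (Om 0) ζ (Om 1) x + kk Om (fm AR) 2 x * quot (Om 0) ζ (Om 2) x -
      nn Om (fm AR) x * quot (Om 0) ζ (fm AR) x) = quot (Om 0) ζ (fm AT) x := fun x => by
    simp only [nn, kk, qRR, qR0, qR1, qR2]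
    change 2 * (_ * quot (fm A0) ζ (fm A0) x + _ * quot (fm A0) ζ (fm A1) x +
      _ * quot (fm A0) ζ (fm A2) x - _ * quot (fm A0) ζ (fm AR) x) = quot (fm A0) ζ (fm AT) x
    simp only [quot0, mat_fm]
    exact wvar (hkx x) _
  simp only [e] at h
  rw [stokes (Ω := Om 0) nd0 vol hl' clT] at h
  exact h

theorem gap : energy Om mu (Om 0) < energy Om mu (fm AR) := by
  have e0 : energy Om mu (Om 0) = 2 := by
    simp [energy, gram]
    norm_num
  have a := fun i => (sm_quot (Ω := Om 0) nd0 clR.sm (smO i)).continuous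
  have hc : Continuous fun x => (∑ i, quot (Om 0) (fm AR) (Om i) x ^ 2) /
      quot (Om 0) (fm AR) (fm AR) x := by
    simp only [qRR]
    fun_prop
  have h := integral_mono (μ := mu) (integrable_const (3 : ℝ)) (vol.int hc) fun x => by
    simp only [Fin.sum_univ_three, qRR, qR0, qR1, qR2]
    have := ww_gt (cs (x 0)) (cs (x 1))
    unfold ww at this
    unfold tt kq
    nlinarith
  rw [e0]
  refine lt_of_lt_of_le ?_ h
  simp
  norm_num

/-- The coefficients of the primitive of `ρ - ω`. -/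
noncomputable def LL (u U v V : ℝ) : Fin 4 → ℝ :=
  ![400 * (V * v) / (2 * Real.pi),
    (1640 * U * v - 800 * (U * u) * v ^ 2 + 1000 * (U - U ^ 3 / 3) * v ^ 3) / (2 * Real.pi),
    -(10 * V) / (2 * Real.pi), U / (2 * Real.pi)]

noncomputable def lam : Form1 T4 := fun x =>
  (dotProductBilin ℝ ℝ (LL (cs (x 0)) (sn (x 0)) (cs (x 1)) (sn (x 1))) : Pt →ₗ[ℝ] ℝ)

theorem co1_lam (p : T4) (c : Fin 4) :
    co1 lam p c = fun y => LL (C 0 y) (S 0 y) (C 1 y) (S 1 y) c := funext fun y => by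
  unfold co1 ev1
  rw [tframe]
  exact dotProduct_single_one (LL (C 0 y) (S 0 y) (C 1 y) (S 1 y)) c

theorem LL_sm (c : Fin 4) : ContDiff ℝ ∞ fun y => LL (C 0 y) (S 0 y) (C 1 y) (S 1 y) c := by
  fin_cases c <;> simp only [LL] <;> simp <;> fun_prop

theorem exact : Exact fun x => lin (fm AR x) (Om 0 x) (-1) := by
  refine ⟨lam, fun x u => ?_, fun p c => ?_, fun p a c y _ => ?_⟩
  · change fm AR x u u + -1 * fm A0 x u u = 0
    rw [clR.1 x u, cl0.1 x u]
    simp
  · rw [co1_lam]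
    exact (LL_sm c).contDiffOn
  · change co2 (fm AR) p a c y + -1 * co2 (fm A0) p a c y = _
    simp only [co2_fm, co1_lam]
    have hp : 2 * Real.pi ≠ 0 := by positivity
    have s0 : S 0 y ^ 2 = 1 - C 0 y ^ 2 := Real.sin_sq _
    have s1 : S 1 y ^ 2 = 1 - C 1 y ^ 2 := Real.sin_sq _
    have i2 := fun c => pd_ind (LL_sm c) 2 y fun s => by
      rw [C_ne (by decide), C_ne (by decide), S_ne (by decide), S_ne (by decide)]
    have i3 := fun c => pd_ind (LL_sm c) 3 y fun s => by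
      rw [C_ne (by decide), C_ne (by decide), S_ne (by decide), S_ne (by decide)]
    have d02 := pd_ind (LL_sm 2) 0 y fun s => by
      rw [S_ne (i := 1) (by decide)]
      rfl
    have d13 := pd_ind (LL_sm 3) 1 y fun s => by
      rw [S_ne (i := 0) (by decide)]
      rfl
    have d03 := pd_line (LL_sm 3) 0 y (d := C 0 y) (by
      refine ((S_der 0 y).div_const (2 * Real.pi)).congr_deriv ?_
      field_simp)
    have d12 := pd_line (LL_sm 2) 1 y (d := -(10 * C 1 y)) (by
      refine (((S_der 1 y).const_mul 10).neg.div_const (2 * Real.pi)).congr_deriv ?_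
      field_simp)
    have d10 := pd_line (LL_sm 0) 1 y (d := 800 * C 1 y ^ 2 - 400) (by
      refine ((((S_der 1 y).fun_mul (C_der 1 y)).const_mul 400).div_const
        (2 * Real.pi)).congr_deriv ?_
      simp only [zero_smul, add_zero]
      field_simp
      linear_combination (-400 : ℝ) * s1)
    have d01 := pd_line (LL_sm 1) 0 y (d := 1640 * (C 0 y * C 1 y) - 1600 * (C 0 y * C 1 y) ^ 2 +
        800 * C 1 y ^ 2 + 1000 * (C 0 y * C 1 y) ^ 3) (by
      simp only [C_ne (i := 1) (a := 0) (by decide)]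
      refine ((((((S_der 0 y).const_mul 1640).mul_const (C 1 y)).fun_sub
        ((((S_der 0 y).fun_mul (C_der 0 y)).const_mul 800).mul_const (C 1 y ^ 2))).fun_add
        ((((S_der 0 y).fun_sub (((S_der 0 y).fun_pow 3).div_const 3)).const_mul 1000).mul_const
          (C 1 y ^ 3))).div_const (2 * Real.pi)).congr_deriv ?_
      simp only [zero_smul, add_zero]
      field_simp
      linear_combination (800 * C 1 y ^ 2 - 1000 * C 0 y * C 1 y ^ 3) * 3 * s0)
    fin_cases a <;> fin_cases c <;>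
      simp [AR, A0, am, i2, i3, d02, d13, d03, d12, d10, d01, tt, ww] <;> ring

end Pool.Agent.DonHC
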